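import Pool.Agent.Zk55.RF.Base

set_option autoImplicit false

/-!
The one-sided mean values of the fibres at the directions of the visible vertices (adapted from
`Zk55/CF/Ident2`, `Ident3`, `Fin` by helper55).
-/

namespace Pool.Agent.Zk40.RF

open Complex Set MeasureTheory Filter Topology Pool.Agent.W780.PG Pool.Agent.W780.BB
  Pool.Agent.TH578.BE Pool.Agent.K3h17.BK Pool.Agent.Zk55.CF Pool.Agent.Zk55.RF

open scoped Real ComplexConjugate

variable {n : ℕ} {p : Fin (n + 3) → ℂ} {χ : Fin (n + 3) → ℂ} {f : ℂ × ℝ → ℂ}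

theorem sg_one (w : List (Fin (n + 3))) : sg (fun _ => (1 : ℂ)) w = 1 := by
  induction w with
  | nil => rfl
  | cons i w ih => simp [sg, ih]

theorem pm_mul {a b : ℝ} (ha : a = 1 ∨ a = -1) (hb : b = 1 ∨ b = -1) :
    a * b = 1 ∨ a * b = -1 := by
  rcases ha with h | h <;> rcases hb with h' | h' <;> rw [h, h'] <;> norm_num

/-- The mean values on the side `ε`. -/
theorem sided_avg (hf : Measurable f) (hb : ∀ x, ‖f x‖ ≤ 1) {ε : ℝ} {G : ℂ → ℝ → ℂ}
    (hG : Sided p f ε G) : ∀ᵐ z : ℂ, z ∈ reg p → ∀ θ : ℝ, Tendsto (fun δ : ℝ =>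
      (1 / (δ : ℂ)) * ∫ η in (0 : ℝ)..δ, f (z, θ + ε * η)) (𝓝[>] 0) (𝓝 (G z θ)) := by
  filter_upwards [hG] with z hz hzr θ
  have h1 := hz hzr θ
  rw [tendsto_iff_norm_sub_tendsto_zero]
  refine squeeze_zero' (Filter.Eventually.of_forall fun _ => norm_nonneg _) ?_ h1
  filter_upwards [self_mem_nhdsWithin] with δ hδ
  have hδ0 : (0 : ℝ) < δ := hδ
  have hδc : (δ : ℂ) ≠ 0 := by exact_mod_cast hδ0.ne'
  have hm : Measurable fun η : ℝ => f (z, θ + ε * η) :=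
    hf.comp (measurable_const.prodMk (measurable_const.add (measurable_id.const_mul ε)))
  have hi : IntervalIntegrable (fun η : ℝ => f (z, θ + ε * η)) volume 0 δ := by
    rw [intervalIntegrable_iff]
    refine ⟨hm.aestronglyMeasurable, HasFiniteIntegral.restrict_of_bounded (C := 1) ?_ ?_⟩
    · rw [uIoc_of_le hδ0.le]
      exact measure_Ioc_lt_top
    · exact Filter.Eventually.of_forall fun η => hb _
  have e1 : (1 / (δ : ℂ)) * (∫ η in (0 : ℝ)..δ, f (z, θ + ε * η)) - G z θ =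
      (1 / (δ : ℂ)) * ∫ η in (0 : ℝ)..δ, (f (z, θ + ε * η) - G z θ) := by
    rw [intervalIntegral.integral_sub hi intervalIntegrable_const,
      intervalIntegral.integral_const, sub_zero, real_smul]
    field_simp
  rw [e1, norm_mul, norm_div, norm_one, Complex.norm_real, Real.norm_eq_abs, abs_of_pos hδ0]
  gcongr
  exact intervalIntegral.norm_integral_le_integral_norm hδ0.le

theorem HH_avg' (w : List (Fin (n + 3))) (j : Fin (n + 3)) (e c ε : ℝ) {ρ : ℝ} (hρ : 0 < ρ) (θ : ℝ) :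
    (1 / (ρ : ℂ)) * ∫ s in (0 : ℝ)..ρ, HH p χ f w j e c (θ, ε * s) =
      sg χ w * Kp p f j (((-1) ^ w.length * ε) * ρ) (e * θ + c) := by
  unfold HH
  have h1 : ∀ s : ℝ, (-1 : ℝ) ^ w.length * (ε * s) = ((-1) ^ w.length * ε) * s := by
    intro s
    ring
  simp only [h1]
  rw [intervalIntegral.integral_const_mul, mul_left_comm, Kp_eq j hρ]

/-- The integrals against test functions near a point which sees the vertex. -/
theorem ident_int (hp : IsConvexPolygon p) (hf : Measurable f) (hb : ∀ x, ‖f x‖ ≤ 1)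
    (hχ : ∀ i, χ i = 1 ∨ χ i = -1) (hE : IsEigenfunction p 0 χ f) {ε : ℝ} (hε : ε = 1 ∨ ε = -1)
    {G : ℂ → ℝ → ℂ} (hG : Sided p f ε G) {z0 : ℂ} (hz0 : z0 ∈ reg p) {w : List (Fin (n + 3))}
    {j : Fin (n + 3)} {θ0 : ℝ} (hv : VisAt p z0 w j θ0) {cj : ℂ}
    (hcj : ∀ σ : ℝ, (σ = 1 ∨ σ = -1) → ∀ ψ : ℝ → ℂ, Continuous ψ → (∀ θ, ψ (θ + 2 * π) = ψ θ) →
      (∀ θ, ψ θ ≠ 0 → θ ∈ Inc p j) →
      Tendsto (fun ρ : ℝ => ∫ θ in (0 : ℝ)..(2 * π), ψ θ * Kp p f j (σ * ρ) θ) (𝓝[>] 0)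
        (𝓝 (cj * ∫ θ in (0 : ℝ)..(2 * π), ψ θ))) :
    ∃ r r1 : ℝ, 0 < r ∧ 0 < r1 ∧ (∀ z, ‖z - z0‖ < r → z ∈ reg p ∧ r1 ≤ ‖z - uf p w (p j)‖) ∧
      ∀ Ψ : ℂ → ℂ, Continuous Ψ → HasCompactSupport Ψ → (∀ z, Ψ z ≠ 0 → ‖z - z0‖ < r) →
        ∫ z, Ψ z * G z (arg (uf p w (p j) - z)) / ‖z - uf p w (p j)‖ =
          sg χ w * cj * ∫ z, Ψ z / ‖z - uf p w (p j)‖ := by
  obtain ⟨e, c, he, hec⟩ := fw_fst (p := p) w
  obtain ⟨τ, u, hτ, hu, hwin⟩ := window hp hz0 hv he hec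
  obtain ⟨-, hb0, hrr, -⟩ := hv
  set b := uf p w (p j) with hbdef
  set L := ‖z0 - b‖ with hL
  have hL0 : 0 < L := by
    rw [hL, norm_pos_iff, sub_ne_zero]
    rintro rfl
    unfold rr at hrr
    rw [sub_self, mul_zero, Complex.zero_re] at hrr
    exact lt_irrefl _ hrr
  have hdist : ∀ z, ‖z - z0‖ < min τ (L / 2) → L / 2 ≤ ‖z - b‖ ∧ ‖z - b‖ ≤ 3 * L / 2 := by
    intro z hz
    have h1 := hz.trans_le (min_le_right _ _)
    have h2 : ‖z - b‖ ≤ ‖z - z0‖ + L := by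
      have : z - b = (z - z0) + (z0 - b) := by ring
      rw [this]
      exact norm_add_le _ _
    have h3 : L ≤ ‖z - b‖ + ‖z - z0‖ := by
      have : z0 - b = (z - b) - (z - z0) := by ring
      rw [hL, this]
      exact norm_sub_le _ _
    constructor <;> linarith
  refine ⟨min τ (L / 2), L / 2, lt_min hτ (by linarith), by linarith, fun z hz =>
    ⟨(hwin z (hz.trans_le (min_le_left _ _))).1, (hdist z hz).1⟩, fun Ψ hΨ hc hsup => ?_⟩
  have hR : (0 : ℝ) ≤ 3 * L / 2 := by linarith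
  have hr1 : 0 < L / 2 := by linarith
  have hsup' : ∀ z, Ψ z ≠ 0 → L / 2 ≤ ‖z - b‖ ∧ ‖z - b‖ ≤ 3 * L / 2 := fun z hz => hdist z (hsup z hz)
  have hin : ∀ z, Ψ z ≠ 0 → z ∈ reg p := fun z hz =>
    (hwin z ((hsup z hz).trans_le (min_le_left _ _))).1
  set W : ℝ → ℂ := fun θ => ∫ t in (0 : ℝ)..(3 * L / 2), Ψ (b - t • dir θ) with hW
  have hWW : ∀ θ, W θ = WW2 b Ψ 1 (3 * L / 2) θ 0 := by
    intro θ
    unfold WW2
    simp only [mv_zero, hW]
  have hWc : Continuous W := by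
    have h1 : W = fun θ => WW2 b Ψ 1 (3 * L / 2) θ 0 := funext hWW
    rw [h1]
    exact (WW2_cont (b := b) (ε := 1) (R := 3 * L / 2) hΨ).comp
      (g := fun x : ℝ × ℝ => WW2 b Ψ 1 (3 * L / 2) x.1 x.2) (f := fun θ : ℝ => (θ, (0 : ℝ)))
      (continuous_id.prodMk continuous_const)
  have hWp : ∀ θ, W (θ + 2 * π) = W θ := by
    intro θ
    simp only [hW, dir_two_pi]
  -- the support of `W`
  have hWs : ∀ θ, W θ ≠ 0 → e * θ + c ∈ Inc p j := by
    intro θ hne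
    obtain ⟨t, ht0, ht⟩ : ∃ t : ℝ, 0 < t ∧ Ψ (b - t • dir θ) ≠ 0 := by
      by_contra hcon
      push Not at hcon
      apply hne
      simp only [hW]
      have : ∫ t in (0 : ℝ)..(3 * L / 2), Ψ (b - t • dir θ) =
          ∫ t in (0 : ℝ)..(3 * L / 2), (0 : ℂ) := by
        refine intervalIntegral.integral_congr_ae (Filter.Eventually.of_forall fun t ht => ?_)
        rw [uIoc_of_le hR] at ht
        exact hcon t ht.1
      rw [this, intervalIntegral.integral_zero]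
    have h1 : rr b θ (b - t • dir θ) = t := by
      rw [← mv_zero b 1, rr_mv]
    have h2 : vv b θ (b - t • dir θ) = 0 := by
      rw [← mv_zero b 1, vv_mv]
      simp
    obtain ⟨-, h3⟩ := hwin _ ((hsup _ ht).trans_le (min_le_left _ _))
    obtain ⟨h4, -⟩ := h3 θ (by rw [h1]; exact ht0) (by rw [h2, abs_zero]; exact hτ)
    exact inc_of_mem hp hu h4
  -- the pencil of `f`
  have lim1 := pen (b := b) (H := HH p χ f w j e c) (ε := ε) (R := 3 * L / 2)
    hΨ hc (HH_meas hp hf w j e c) (HH_bound hp hE hb hχ w j e c) (HH_per hE w j he c)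
    hε hr1 hR hsup' (f := f) (ρ0 := τ) hτ
    (fun z hz θ h1 h2 => by
      obtain ⟨hzr, h3⟩ := hwin z ((hsup z hz).trans_le (min_le_left _ _))
      obtain ⟨-, k, y, h4, h5, h6⟩ := h3 θ h1 h2
      exact HH_val hp hE hχ he hec hzr h4 h5 h6)
    (g := fun z => G z (arg (b - z))) (by
      filter_upwards [sided_avg hf hb hG] with z hz h
      exact hz (hin z h) _)
  -- the pencil of `1`
  have lim2 := pen (b := b) (H := fun _ => 1) (ε := 1) (R := 3 * L / 2)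
    hΨ hc measurable_const (fun _ => by simp) (fun _ _ => rfl)
    (Or.inl rfl) hr1 hR hsup' (f := fun _ => 1) (ρ0 := 1) one_pos
    (fun z hz θ h1 h2 => rfl)
    (g := fun _ => 1) (Filter.Eventually.of_forall fun z _ => by
      have h1 : ∀ᶠ δ : ℝ in 𝓝[>] (0 : ℝ), (1 : ℂ) = (1 / (δ : ℂ)) * ∫ η in (0 : ℝ)..δ, (1 : ℂ) := by
        filter_upwards [self_mem_nhdsWithin] with δ hδ
        have h2 : (δ : ℂ) ≠ 0 := by exact_mod_cast (ne_of_gt hδ)
        rw [intervalIntegral.integral_const, sub_zero, real_smul, mul_one]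
        field_simp
      exact tendsto_const_nhds.congr' h1)
  have hW2 : ∫ θ in (0 : ℝ)..(2 * π), W θ = ∫ z, Ψ z / ‖z - b‖ := by
    have h1 : ∀ᶠ ρ : ℝ in 𝓝[>] (0 : ℝ), (∫ θ in (0 : ℝ)..(2 * π),
        (∫ t in (0 : ℝ)..(3 * L / 2), Ψ (b - t • dir θ)) *
        ((1 / (ρ : ℂ)) * ∫ s in (0 : ℝ)..ρ, (1 : ℂ))) = ∫ θ in (0 : ℝ)..(2 * π), W θ := by
      filter_upwards [self_mem_nhdsWithin] with ρ hρ
      have h2 : (ρ : ℂ) ≠ 0 := by exact_mod_cast (ne_of_gt hρ)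
      have h3 : (1 / (ρ : ℂ)) * ∫ s in (0 : ℝ)..ρ, (1 : ℂ) = 1 := by
        rw [intervalIntegral.integral_const, sub_zero, real_smul, mul_one]
        field_simp
      simp only [h3, mul_one, hW]
    have h4 := lim2.congr' h1
    have h5 := tendsto_nhds_unique (tendsto_const_nhds (α := ℝ)
      (x := ∫ θ in (0 : ℝ)..(2 * π), W θ) (f := 𝓝[>] 0)) h4
    rw [h5]
    simp only [mul_one]
  -- the test function of the directions at the vertex
  set ψ : ℝ → ℂ := fun φ => W (e * (φ - c)) with hψ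
  have hψW : ∀ θ, ψ (e * θ + c) = W θ := by
    intro θ
    simp only [hψ]
    congr 1
    rw [add_sub_cancel_right, ← mul_assoc, e_sq he, one_mul]
  have hψc : Continuous ψ := hWc.comp (by fun_prop)
  have hψp : ∀ φ, ψ (φ + 2 * π) = ψ φ := by
    intro φ
    have := e_per hWp he (-(e * c)) φ
    simp only [hψ]
    have e1 : e * (φ + 2 * π - c) = e * (φ + 2 * π) + -(e * c) := by ring
    have e2 : e * (φ - c) = e * φ + -(e * c) := by ring
    rw [e1, e2, this]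
  have hψs : ∀ φ, ψ φ ≠ 0 → φ ∈ Inc p j := by
    intro φ hne
    have := hWs (e * (φ - c)) hne
    have e1 : e * (e * (φ - c)) + c = φ := by
      rw [← mul_assoc, e_sq he]
      ring
    rwa [e1] at this
  have lim3 := (hcj ((-1) ^ w.length * ε) (pm_mul (pow_pm _) hε) ψ hψc hψp hψs).const_mul (sg χ w)
  have hψi : ∫ φ in (0 : ℝ)..(2 * π), ψ φ = ∫ θ in (0 : ℝ)..(2 * π), W θ := by
    rw [← int_sub hψp he c]
    simp only [hψW]
  rw [hψi, hW2] at lim3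
  have h6 : ∀ᶠ ρ : ℝ in 𝓝[>] (0 : ℝ), (∫ θ in (0 : ℝ)..(2 * π),
      (∫ t in (0 : ℝ)..(3 * L / 2), Ψ (b - t • dir θ)) *
      ((1 / (ρ : ℂ)) * ∫ s in (0 : ℝ)..ρ, HH p χ f w j e c (θ, ε * s))) =
      sg χ w * ∫ φ in (0 : ℝ)..(2 * π), ψ φ * Kp p f j (((-1) ^ w.length * ε) * ρ) φ := by
    filter_upwards [self_mem_nhdsWithin] with ρ hρ
    have h7 : ∀ φ, ψ (φ + 2 * π) * Kp p f j (((-1) ^ w.length * ε) * ρ) (φ + 2 * π) =
        ψ φ * Kp p f j (((-1) ^ w.length * ε) * ρ) φ := by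
      intro φ
      rw [hψp, Kp_per hE]
    rw [← int_sub (g := fun φ => ψ φ * Kp p f j (((-1) ^ w.length * ε) * ρ) φ) h7 he c,
      ← intervalIntegral.integral_const_mul]
    refine intervalIntegral.integral_congr fun θ _ => ?_
    rw [HH_avg' w j e c ε hρ θ, hψW]
    simp only [hW]
    ring
  have h8 := tendsto_nhds_unique (lim1.congr' h6) lim3
  rw [h8]
  ring

theorem avg_meas (hf : Measurable f) (b : ℂ) (ε : ℝ) {δ : ℝ} (hδ : 0 ≤ δ) :
    Measurable fun z : ℂ => (1 / (δ : ℂ)) * ∫ η in (0 : ℝ)..δ, f (z, arg (b - z) + ε * η) := by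
  refine Measurable.const_mul ?_ _
  have hu : Measurable fun x : ℂ × ℝ => f (x.1, arg (b - x.1) + ε * x.2) := by
    refine hf.comp (measurable_fst.prodMk ?_)
    exact (Complex.measurable_arg.comp (measurable_const.sub measurable_fst)).add
      (measurable_const.mul measurable_snd)
  simp only [intervalIntegral.integral_of_le hδ]
  exact (hu.stronglyMeasurable.integral_prod_right' (ν := volume.restrict (Ioc 0 δ))).measurable

theorem avg_bound (hb : ∀ x, ‖f x‖ ≤ 1) (z : ℂ) (α ε : ℝ) {δ : ℝ} (hδ : 0 < δ) :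
    ‖(1 / (δ : ℂ)) * ∫ η in (0 : ℝ)..δ, f (z, α + ε * η)‖ ≤ 1 := by
  have h := intervalIntegral.norm_integral_le_of_norm_le_const (a := 0) (b := δ) (C := 1)
    (f := fun η : ℝ => f (z, α + ε * η)) (fun u _ => hb _)
  rw [sub_zero, abs_of_pos hδ, one_mul] at h
  rw [norm_mul, norm_div, norm_one, Complex.norm_real, Real.norm_eq_abs, abs_of_pos hδ]
  calc _ ≤ 1 / δ * δ := by gcongr
    _ = 1 := by field_simp

theorem ident_loc (hp : IsConvexPolygon p) (hf : Measurable f) (hb : ∀ x, ‖f x‖ ≤ 1)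
    (hχ : ∀ i, χ i = 1 ∨ χ i = -1) (hE : IsEigenfunction p 0 χ f) {ε : ℝ} (hε : ε = 1 ∨ ε = -1)
    {G : ℂ → ℝ → ℂ} (hG : Sided p f ε G) {z0 : ℂ} (hz0 : z0 ∈ reg p) {w : List (Fin (n + 3))}
    {j : Fin (n + 3)} {θ0 : ℝ} (hv : VisAt p z0 w j θ0) {cj : ℂ}
    (hcj : ∀ σ : ℝ, (σ = 1 ∨ σ = -1) → ∀ ψ : ℝ → ℂ, Continuous ψ → (∀ θ, ψ (θ + 2 * π) = ψ θ) →
      (∀ θ, ψ θ ≠ 0 → θ ∈ Inc p j) →
      Tendsto (fun ρ : ℝ => ∫ θ in (0 : ℝ)..(2 * π), ψ θ * Kp p f j (σ * ρ) θ) (𝓝[>] 0)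
        (𝓝 (cj * ∫ θ in (0 : ℝ)..(2 * π), ψ θ))) :
    ∃ r : ℝ, 0 < r ∧ ∀ᵐ z, ‖z - z0‖ < r → G z (arg (uf p w (p j) - z)) = sg χ w * cj := by
  obtain ⟨r, r1, hr, hr1, hin, hint⟩ := ident_int hp hf hb hχ hE hε hG hz0 hv hcj
  refine ⟨r, hr, ?_⟩
  set b := uf p w (p j) with hbdef
  set U := Metric.ball z0 r with hU
  have hUm : MeasurableSet U := Metric.isOpen_ball.measurableSet
  have hUr : ∀ z ∈ U, ‖z - z0‖ < r := by
    intro z hz
    rwa [hU, Metric.mem_ball, dist_eq_norm] at hz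
  -- the limits
  have hlim : ∀ᵐ z, z ∈ U → Tendsto (fun δ : ℝ =>
      (1 / (δ : ℂ)) * ∫ η in (0 : ℝ)..δ, f (z, arg (b - z) + ε * η)) (𝓝[>] 0)
      (𝓝 (G z (arg (b - z)))) := by
    filter_upwards [sided_avg hf hb hG] with z hz h
    exact hz (hin z (hUr z h)).1 _
  have hgm : AEStronglyMeasurable (fun z => G z (arg (b - z))) (volume.restrict U) := by
    refine aestronglyMeasurable_of_tendsto_ae atTop
      (f := fun (m : ℕ) (z : ℂ) => (1 / (((1 / ((m : ℝ) + 1) : ℝ)) : ℂ)) *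
        ∫ η in (0 : ℝ)..(1 / ((m : ℝ) + 1)), f (z, arg (b - z) + ε * η)) (fun m => ?_) ?_
    · exact (avg_meas hf b ε (by positivity)).aestronglyMeasurable
    · rw [ae_restrict_iff' hUm]
      filter_upwards [hlim] with z hz h
      exact (hz h).comp seq_lim
  have hgb : ∀ᵐ z ∂(volume.restrict U), ‖G z (arg (b - z))‖ ≤ 1 := by
    rw [ae_restrict_iff' hUm]
    filter_upwards [hlim] with z hz h
    refine le_of_tendsto (hz h).norm ?_
    filter_upwards [self_mem_nhdsWithin] with δ hδ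
    exact avg_bound hb z _ ε hδ
  have hnm : AEStronglyMeasurable (fun z : ℂ => ((‖z - b‖ : ℝ) : ℂ)) (volume.restrict U) := by
    apply Continuous.aestronglyMeasurable
    fun_prop
  have hnb : ∀ z ∈ U, ‖((‖z - b‖ : ℝ) : ℂ)⁻¹‖ ≤ 1 / r1 := by
    intro z hz
    have h1 := (hin z (hUr z hz)).2
    rw [norm_inv, Complex.norm_real, Real.norm_eq_abs, abs_of_nonneg (norm_nonneg _), one_div]
    exact inv_anti₀ hr1 h1
  have hF1 : IntegrableOn (fun z => G z (arg (b - z)) / ‖z - b‖) U := by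
    refine ⟨hgm.div₀ hnm, HasFiniteIntegral.restrict_of_bounded (C := 1 / r1)
      measure_ball_lt_top ?_⟩
    filter_upwards [hgb, ae_restrict_mem hUm] with z h1 h2
    rw [div_eq_mul_inv, norm_mul]
    have h3 := hnb z h2
    calc _ ≤ 1 * (1 / r1) := mul_le_mul h1 h3 (norm_nonneg _) zero_le_one
      _ = _ := one_mul _
  have hF2 : IntegrableOn (fun z : ℂ => (1 : ℂ) / ‖z - b‖) U := by
    refine ⟨aestronglyMeasurable_const.div₀ hnm, HasFiniteIntegral.restrict_of_bounded (C := 1 / r1)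
      measure_ball_lt_top ?_⟩
    filter_upwards [ae_restrict_mem hUm] with z h2
    rw [one_div]
    exact hnb z h2
  have hF : IntegrableOn (fun z => G z (arg (b - z)) / ‖z - b‖ -
      (sg χ w * cj) * ((1 : ℂ) / ‖z - b‖)) U := hF1.sub (hF2.const_mul _)
  have hzero := Metric.isOpen_ball.ae_eq_zero_of_integral_contDiff_smul_eq_zero
    (μ := volume) (U := U) hF.locallyIntegrableOn (fun g hg hgc hgs => by
      have hgcont := hg.continuous
      have hsupp : ∀ z, (g z : ℂ) ≠ 0 → z ∈ U := by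
        intro z hz
        have h1 : g z ≠ 0 := by exact_mod_cast hz
        exact hgs (subset_tsupport _ h1)
      obtain ⟨M, hM⟩ := hgc.exists_bound_of_continuous hgcont
      have hΨc : Continuous fun z => (g z : ℂ) := Complex.continuous_ofReal.comp hgcont
      have hΨs : HasCompactSupport fun z => (g z : ℂ) := hgc.comp_left Complex.ofReal_zero
      have h1 := hint (fun z => (g z : ℂ)) hΨc hΨs (fun z hz => hUr z (hsupp z hz))
      have hI : ∀ F : ℂ → ℂ, IntegrableOn F U → Integrable fun z => (g z : ℂ) * F z := by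
        intro F hFi
        rw [← integrableOn_iff_integrable_of_support_subset (s := U)]
        · exact Integrable.bdd_mul (c := M) hFi hΨc.aestronglyMeasurable
            (Filter.Eventually.of_forall fun z => by
              rw [Complex.norm_real]; exact hM z)
        · intro z hz
          exact hsupp z (left_ne_zero_of_mul hz)
      have e1 : ∀ z, g z • (G z (arg (b - z)) / ‖z - b‖ - (sg χ w * cj) * ((1 : ℂ) / ‖z - b‖)) =
          (g z : ℂ) * (G z (arg (b - z)) / ‖z - b‖) -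
          (sg χ w * cj) * ((g z : ℂ) * ((1 : ℂ) / ‖z - b‖)) := by
        intro z
        rw [real_smul]
        ring
      simp only [e1]
      rw [integral_sub (hI _ hF1) ((hI _ hF2).const_mul _), integral_const_mul, sub_eq_zero]
      have e2 : ∀ z, (g z : ℂ) * (G z (arg (b - z)) / ‖z - b‖) =
          (g z : ℂ) * G z (arg (b - z)) / ‖z - b‖ := fun z => by ring
      have e3 : ∀ z, (g z : ℂ) * ((1 : ℂ) / ‖z - b‖) = (g z : ℂ) / ‖z - b‖ := fun z => by ring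
      simp only [e2, e3]
      exact h1)
  filter_upwards [hzero] with z hz h
  have hzU : z ∈ U := by
    rw [hU, Metric.mem_ball, dist_eq_norm]
    exact h
  have h1 := hz hzU
  have h2 := (hin z h).2
  have h3 : ((‖z - b‖ : ℝ) : ℂ) ≠ 0 := by
    have : ‖z - b‖ ≠ 0 := by linarith
    exact_mod_cast this
  rw [mul_one_div, ← sub_div, div_eq_zero_iff] at h1
  rcases h1 with h1 | h1
  · exact sub_eq_zero.1 h1
  · exact absurd h1 h3

theorem ident_ae (hp : IsConvexPolygon p) (hf : Measurable f) (hb : ∀ x, ‖f x‖ ≤ 1)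
    (hχ : ∀ i, χ i = 1 ∨ χ i = -1) (hE : IsEigenfunction p 0 χ f) {ε : ℝ} (hε : ε = 1 ∨ ε = -1)
    {G : ℂ → ℝ → ℂ} (hG : Sided p f ε G) {c : Fin (n + 3) → ℂ}
    (hc : ∀ j, ∀ σ : ℝ, (σ = 1 ∨ σ = -1) → ∀ ψ : ℝ → ℂ, Continuous ψ → (∀ θ, ψ (θ + 2 * π) = ψ θ) →
      (∀ θ, ψ θ ≠ 0 → θ ∈ Inc p j) → Tendsto (fun ρ : ℝ => ∫ θ in (0 : ℝ)..(2 * π),
        ψ θ * Kp p f j (σ * ρ) θ) (𝓝[>] 0) (𝓝 (c j * ∫ θ in (0 : ℝ)..(2 * π), ψ θ))) :
    ∀ᵐ z : ℂ, z ∈ reg p → ∀ (w : List (Fin (n + 3))) (j : Fin (n + 3))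
      (θ : ℝ), VisAt p z w j θ → G z (arg (uf p w (p j) - z)) = sg χ w * c j := by
  have key : ∀ (w : List (Fin (n + 3))) (j : Fin (n + 3)), ∀ᵐ z : ℂ,
      z ∈ reg p → ∀ θ : ℝ, VisAt p z w j θ → G z (arg (uf p w (p j) - z)) = sg χ w * c j := by
    intro w j
    set S : Set ℂ := {z | z ∈ reg p ∧ (∃ θ, VisAt p z w j θ) ∧
      G z (arg (uf p w (p j) - z)) ≠ sg χ w * c j} with hS
    have hS0 : volume S = 0 := by
      refine measure_null_of_locally_null S fun z0 hz0 => ?_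
      obtain ⟨h1, ⟨θ0, h2⟩, -⟩ := hz0
      obtain ⟨r, hr, h3⟩ := ident_loc hp hf hb hχ hE hε hG h1 h2 (hc j)
      refine ⟨S ∩ Metric.ball z0 r, inter_mem_nhdsWithin S (Metric.ball_mem_nhds z0 hr), ?_⟩
      refine measure_eq_zero_iff_ae_notMem.2 ?_
      filter_upwards [h3] with z h4
      rintro ⟨⟨-, -, h5⟩, h6⟩
      rw [Metric.mem_ball, dist_eq_norm] at h6
      exact h5 (h4 h6)
    filter_upwards [measure_eq_zero_iff_ae_notMem.1 hS0] with z hz hzV θ hv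
    by_contra hne
    exact hz ⟨hzV, ⟨θ, hv⟩, hne⟩
  have h1 : ∀ᵐ z : ℂ, ∀ (w : List (Fin (n + 3))) (j : Fin (n + 3)),
      z ∈ reg p → ∀ θ : ℝ, VisAt p z w j θ →
        G z (arg (uf p w (p j) - z)) = sg χ w * c j :=
    ae_all_iff.2 fun w => ae_all_iff.2 fun j => key w j
  filter_upwards [h1] with z h hz w j θ hv
  exact h w j hz θ hv

theorem ident_sided (hp : IsConvexPolygon p) (hf : Measurable f) (hb : ∀ x, ‖f x‖ ≤ 1)
    (hE : IsEigenfunction p 0 (fun _ => 1) f) {ε : ℝ} (hε : ε = 1 ∨ ε = -1) {G : ℂ → ℝ → ℂ}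
    (hG : Sided p f ε G) {c : Fin (n + 3) → ℂ}
    (hc : ∀ j, ∀ σ : ℝ, (σ = 1 ∨ σ = -1) → ∀ ψ : ℝ → ℂ, Continuous ψ → (∀ θ, ψ (θ + 2 * π) = ψ θ) →
      (∀ θ, ψ θ ≠ 0 → θ ∈ Inc p j) → Tendsto (fun ρ : ℝ => ∫ θ in (0 : ℝ)..(2 * π),
        ψ θ * Kp p f j (σ * ρ) θ) (𝓝[>] 0) (𝓝 (c j * ∫ θ in (0 : ℝ)..(2 * π), ψ θ))) :
    ∀ᵐ z : ℂ, z ∈ reg p → ∀ w j θ, VisAt p z w j θ → G z θ = c j := by
  filter_upwards [sided_avg hf hb hG,
    ident_ae hp hf hb (fun _ => Or.inl rfl) hE hε hG hc] with z h1 h2 hz w j θ hv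
  have hper : ∀ θ, G z (θ + 2 * π) = G z θ := by
    intro θ
    have h3 := h1 hz (θ + 2 * π)
    have e : ∀ η : ℝ, f (z, θ + 2 * π + ε * η) = f (z, θ + ε * η) := by
      intro η
      have := hE.periodic z (θ + ε * η)
      rw [← this]
      congr 2
      ring
    simp only [e] at h3
    exact tendsto_nhds_unique h3 (h1 hz θ)
  have h3 := h2 hz w j θ hv
  rw [sg_one, one_mul] at h3
  rw [← h3]
  obtain ⟨-, h4, h5, -⟩ := hv
  have h6 := on_line (ph_ln_self z θ) h4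
  rw [← tt_rr] at h6
  have h7 : uf p w (p j) - z = rr (uf p w (p j)) θ z • dir θ := by
    conv_lhs => rw [h6]
    rw [add_sub_cancel_left]
    rfl
  rw [h7, arg_dir hper h5]

end Pool.Agent.Zk40.RF
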