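import Pool.Agent.Zk55.RF.Base2
import Pool.Agent.Zk58.RFG

set_option autoImplicit false

/-!
Visible vertices for short segments: the directions in which they are seen.

Module for helper55 (MP_7bc51d_an).
-/

namespace Pool.Agent.Zk40.RF

open Complex Set MeasureTheory Filter Topology Pool.Agent.W780.PG Pool.Agent.W780.BB
  Pool.Agent.TH578.BE Pool.Agent.K3h17.BK Pool.Agent.Zk55.CF Pool.Agent.Zk55.RF

open scoped Real ComplexConjugate

variable {n : ℕ} {p : Fin (n + 3) → ℂ}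

/-- Visibility does not change if a multiple of `2 π` is added to the direction. -/
theorem vis_per {z : ℂ} {w : List (Fin (n + 3))} {k : Fin (n + 3)} {θ : ℝ} (h : VisAt p z w k θ)
    (m : ℤ) : VisAt p z w k (θ + 2 * π * m) := by
  obtain ⟨h1, h2, h3, h4⟩ := h
  have e : ln z (θ + 2 * π * m) = ((ln z θ).1 + 2 * π * m, (ln z θ).2) := by
    unfold ln
    rw [dir_int]
  refine ⟨?_, ?_, ?_, ?_⟩
  · rw [e, RW_per]
    exact h1
  · rw [e, ph_per]
    exact h2
  · unfold rr at h3 ⊢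
    rw [dir_int]
    exact h3
  · rw [e, fw_per, dir_int]
    exact h4

/-- A visible unfolded vertex is not in the polygon. -/
theorem vis_out (hp : IsConvexPolygon p) {y : ℂ} (hy : y ∈ reg p) {w : List (Fin (n + 3))}
    {k : Fin (n + 3)} {θ : ℝ} (h : VisAt p y w k θ) : uf p w (p k) ∉ reg p := by
  intro hU
  have h1 : Pool.Agent.Zk58.RF.ChW p w y (uf p w (p k)) :=
    Pool.Agent.Zk58.RF.chW_of_RW hp k w (ln y θ) y h.1 (ph_ln_self _ _) (fun j => (hy j).le)
      (fun i _ _ => hy i) h.2.1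
  cases w with
  | nil =>
    have h2 : 0 < sf p k (p k) := hU k
    unfold sf at h2
    rw [Pool.Agent.W174.PG.lft_left] at h2
    exact lt_irrefl _ h2
  | cons i w =>
    have h2 := h1.2.1
    have h3 : 0 < sf p i (uf p (i :: w) (p k)) := hU i
    linarith

/-- The direction in which the vertex is seen, close to a given direction. -/
theorem vis_arg {y : ℂ} {w : List (Fin (n + 3))} {k : Fin (n + 3)} {φ : ℝ} (h : VisAt p y w k φ)
    (θ : ℝ) : VisAt p y w k (θ + arg (conj (dir θ) * (uf p w (p k) - y))) := by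
  have h0 := h
  obtain ⟨-, h2, h3, -⟩ := h0
  have h4 := on_line (ph_ln_self y φ) h2
  rw [← tt_rr] at h4
  set t := rr (uf p w (p k)) φ y with ht
  have h5 : conj (dir θ) * (uf p w (p k) - y) = (t : ℂ) * dir (φ - θ) := by
    rw [h4, add_sub_cancel_left, real_smul, mul_left_comm]
    show (t : ℂ) * (conj (dir θ) * dir φ) = _
    rw [dir_conj, dir_mul, show -θ + φ = φ - θ by ring]
  have h6 : exp ((arg (conj (dir θ) * (uf p w (p k) - y)) : ℂ) * I) = exp (((φ - θ : ℝ) : ℂ) * I) := by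
    have h7 := Complex.norm_mul_exp_arg_mul_I (conj (dir θ) * (uf p w (p k) - y))
    have h8 : ‖conj (dir θ) * (uf p w (p k) - y)‖ = t := by
      rw [h5, norm_mul, nd, mul_one, Complex.norm_real, Real.norm_eq_abs, abs_of_pos h3]
    rw [h8] at h7
    have h9 : (t : ℂ) ≠ 0 := by exact_mod_cast h3.ne'
    refine mul_left_cancel₀ h9 (h7.trans ?_)
    rw [h5]
    rfl
  obtain ⟨m, hm⟩ := Complex.exp_eq_exp_iff_exists_int.1 h6
  have h10 : arg (conj (dir θ) * (uf p w (p k) - y)) = φ - θ + m * (2 * π) := by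
    have h11 : ((arg (conj (dir θ) * (uf p w (p k) - y)) : ℝ) : ℂ) * I =
        ((φ - θ + m * (2 * π) : ℝ) : ℂ) * I := by
      rw [hm]
      push_cast
      ring
    exact_mod_cast mul_right_cancel₀ I_ne_zero h11
  rw [h10, show θ + (φ - θ + m * (2 * π)) = φ + 2 * π * m by ring]
  exact vis_per h m

/-- The argument of a vector close to the positive real axis. -/
theorem arg_near {ε : ℝ} (hε : 0 < ε) {d : ℝ} (hd : 0 < d) : ∃ σ : ℝ, 0 < σ ∧ σ ≤ d / 2 ∧
    ∀ z : ℂ, d ≤ ‖z‖ → -σ ≤ z.re → |z.im| ≤ σ →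
      0 < z.re ∧ |arg z| < ε ∧ (0 ≤ z.im → 0 ≤ arg z) ∧ (z.im ≤ 0 → arg z ≤ 0) ∧
        (0 < z.im → 0 < arg z) ∧ (z.im < 0 → arg z < 0) := by
  set ε' := min ε 1 with hε'
  have hε'0 : 0 < ε' := lt_min hε one_pos
  have hpi := Real.pi_gt_three
  have hε'2 : ε' ≤ 1 := min_le_right _ _
  have hs : 0 < Real.sin ε' := Real.sin_pos_of_pos_of_lt_pi hε'0 (by linarith)
  have hs1 : Real.sin ε' ≤ 1 := Real.sin_le_one _
  refine ⟨d * Real.sin ε' / 2, by positivity, ?_, fun z h1 h2 h3 => ?_⟩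
  · have := mul_le_mul_of_nonneg_left hs1 hd.le
    linarith
  set σ := d * Real.sin ε' / 2 with hσ
  have hσ0 : 0 < σ := by positivity
  have hσd : σ ≤ d / 2 := by
    have := mul_le_mul_of_nonneg_left hs1 hd.le
    linarith
  have hz0 : 0 < ‖z‖ := hd.trans_le h1
  have hre : 0 < z.re := by
    by_contra hcon
    push Not at hcon
    have h4 : |z.re| ≤ σ := abs_le.2 ⟨h2, by linarith⟩
    have h5 : ‖z‖ ^ 2 = z.re ^ 2 + z.im ^ 2 := by
      rw [Complex.sq_norm, Complex.normSq_apply]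
      ring
    have h6 : z.re ^ 2 ≤ σ ^ 2 := sq_le_sq' (abs_le.1 h4).1 (abs_le.1 h4).2
    have h7 : z.im ^ 2 ≤ σ ^ 2 := sq_le_sq' (abs_le.1 h3).1 (abs_le.1 h3).2
    have h8 : d ^ 2 ≤ ‖z‖ ^ 2 := by gcongr
    have h9 : σ ^ 2 ≤ (d / 2) ^ 2 := by gcongr
    nlinarith
  have harg : arg z = Real.arcsin (z.im / ‖z‖) := Complex.arg_of_re_nonneg hre.le
  have hq : |z.im / ‖z‖| < Real.sin ε' := by
    rw [abs_div, abs_of_pos hz0, div_lt_iff₀ hz0]
    have : Real.sin ε' * d ≤ Real.sin ε' * ‖z‖ := mul_le_mul_of_nonneg_left h1 hs.le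
    have h10 : 0 < d * Real.sin ε' := by positivity
    linarith
  have h11 : |arg z| < ε' := by
    rw [harg, abs_lt]
    constructor
    · rw [Real.lt_arcsin_iff_sin_lt' ⟨by linarith, by linarith⟩, Real.sin_neg]
      exact (abs_lt.1 hq).1
    · rw [Real.arcsin_lt_iff_lt_sin' ⟨by linarith, by linarith⟩]
      exact (abs_lt.1 hq).2
  refine ⟨hre, h11.trans_le (min_le_left _ _), fun h => ?_, fun h => ?_, fun h => ?_, fun h => ?_⟩
  · exact Complex.arg_nonneg_iff.2 h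
  · rw [harg]
    exact Real.arcsin_nonpos.2 (div_nonpos_of_nonpos_of_nonneg h hz0.le)
  · rw [harg]
    exact Real.arcsin_pos.2 (div_pos h hz0)
  · exact Complex.arg_neg_iff.2 h

/-- The position of the new vertex, in the coordinates of the given direction. -/
theorem position (hp : IsConvexPolygon p) {z0 : ℂ} (hz0 : z0 ∈ reg p) {ε : ℝ} (hε : 0 < ε) :
    ∃ ρ : ℝ, 0 < ρ ∧ Metric.ball z0 ρ ⊆ reg p ∧ ∀ B ∈ Metric.ball z0 ρ, ∀ C ∈ Metric.ball z0 ρ,
      ∀ τ ∈ Icc (0 : ℝ) 1, ∀ (θ : ℝ) (w : List (Fin (n + 3))) (k : Fin (n + 3)),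
      VisAt p (B + τ • (C - B)) w k θ →
      ∃ (u : List (Fin (n + 3))) (l : Fin (n + 3)) (a b c : ℝ), 0 ≤ a ∧ 0 ≤ b ∧ 0 ≤ c ∧
        a + b + c = 1 ∧ (a ≠ 0 ∨ c ≠ 0) ∧ (a ≠ 0 ∨ b ≠ 0) ∧ ∀ s ∈ Icc (0 : ℝ) 1,
          ∃ α : ℝ, |α| < ε ∧ VisAt p (B + s • (C - B)) u l (θ + α) ∧
            (0 ≤ (a * τ + c - s) * (conj (dir θ) * (C - B)).im → 0 ≤ α) ∧
            ((a * τ + c - s) * (conj (dir θ) * (C - B)).im ≤ 0 → α ≤ 0) ∧
            (0 < (a * τ + c - s) * (conj (dir θ) * (C - B)).im → 0 < α) ∧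
            ((a * τ + c - s) * (conj (dir θ) * (C - B)).im < 0 → α < 0) := by
  obtain ⟨r0, hr0, hball⟩ := Metric.isOpen_iff.1 (reg_op hp) z0 hz0
  obtain ⟨σ, hσ0, hσd, hσ⟩ := arg_near hε (d := r0 / 2) (by linarith)
  refine ⟨σ / 2, by positivity, (Metric.ball_subset_ball (by linarith)).trans hball, ?_⟩
  intro B hB C hC τ hτ θ w k hv
  have hBr : B ∈ reg p := hball (Metric.ball_subset_ball (by linarith) hB)
  have hCr : C ∈ reg p := hball (Metric.ball_subset_ball (by linarith) hC)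
  have hseg : ∀ s ∈ Icc (0 : ℝ) 1, B + s • (C - B) ∈ segment ℝ B C := by
    intro s hs
    rw [segment_eq_image']
    exact ⟨s, hs, rfl⟩
  obtain ⟨u, l, hU, hvis⟩ := Pool.Agent.Zk58.RF.tri hp hBr hCr (hseg τ hτ) hv
  set V := uf p w (p k) with hV
  set U := uf p u (p l) with hUdef
  have hUout : U ∉ reg p := by
    obtain ⟨φ, hφ⟩ := hvis B (left_mem_segment ℝ _ _)
    exact vis_out hp hBr hφ
  -- barycentric coordinates
  obtain ⟨a, b, c, ha, hb, hc, habc, hUc⟩ : ∃ a b c : ℝ, 0 ≤ a ∧ 0 ≤ b ∧ 0 ≤ c ∧ a + b + c = 1 ∧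
      U = a • V + b • B + c • C := by
    rw [show ({V, B, C} : Set ℂ) = insert V {B, C} from rfl, convexHull_insert ⟨B, by simp⟩,
      convexHull_pair, mem_convexJoin] at hU
    obtain ⟨V', hV', q, hq, hZ⟩ := hU
    rw [mem_singleton_iff] at hV'
    rw [hV'] at hZ
    obtain ⟨x1, x2, hx1, hx2, hx, rfl⟩ := hq
    obtain ⟨y1, y2, hy1, hy2, hy, hE⟩ := hZ
    refine ⟨y1, y2 * x1, y2 * x2, hy1, by positivity, by positivity, ?_, ?_⟩
    · rw [show y1 + y2 * x1 + y2 * x2 = y1 + y2 * (x1 + x2) by ring, hx]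
      linarith
    · rw [← hE, smul_add, smul_smul, smul_smul]
      abel
  -- the vertex `V`
  obtain ⟨-, hv2, hv3, -⟩ := hv
  have hv4 := on_line (ph_ln_self _ θ) hv2
  rw [← tt_rr] at hv4
  set t := rr (uf p w (p k)) θ (B + τ • (C - B)) with ht
  have hv5 : V = B + τ • (C - B) + t • dir θ := hv4
  set e := conj (dir θ) * (C - B) with he
  have hCB : ‖C - B‖ < σ := by
    rw [Metric.mem_ball, dist_eq_norm] at hB hC
    have : C - B = (C - z0) - (B - z0) := by ring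
    rw [this]
    exact (norm_sub_le _ _).trans_lt (by linarith)
  have hen : ‖e‖ < σ := by
    rw [he, norm_mul, dir_conj, nd, one_mul]
    exact hCB
  have hpos : ∀ s : ℝ, conj (dir θ) * (U - (B + s • (C - B))) =
      ((a * t : ℝ) : ℂ) + ((a * τ + c - s : ℝ) : ℂ) * e := by
    intro s
    have h1 : b = 1 - a - c := by linarith
    have h2 : U - (B + s • (C - B)) = ((a * t : ℝ) : ℂ) * dir θ +
        ((a * τ + c - s : ℝ) : ℂ) * (C - B) := by
      rw [hUc, hv5, h1]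
      simp only [real_smul]
      push_cast
      ring
    rw [h2, mul_add, mul_left_comm, conj_dir_mul, mul_one, mul_left_comm]
  refine ⟨u, l, a, b, c, ha, hb, hc, habc, ?_, ?_, fun s hs => ?_⟩
  · by_contra hcon
    push Not at hcon
    obtain ⟨h1, h2⟩ := hcon
    have h3 : b = 1 := by linarith
    apply hUout
    rw [hUc, h1, h2, h3, zero_smul, zero_smul, one_smul, zero_add, add_zero]
    exact hBr
  · by_contra hcon
    push Not at hcon
    obtain ⟨h1, h2⟩ := hcon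
    have h3 : c = 1 := by linarith
    apply hUout
    rw [hUc, h1, h2, h3, zero_smul, zero_smul, one_smul, zero_add, zero_add]
    exact hCr
  · have hat : 0 ≤ a * t := mul_nonneg ha hv3.le
    have hco : |a * τ + c - s| ≤ 1 := by
      have h1 : 0 ≤ a * τ := mul_nonneg ha hτ.1
      have h2 : a * τ ≤ a := by
        have := mul_le_mul_of_nonneg_left hτ.2 ha
        linarith
      rw [abs_le]
      constructor
      · linarith [hs.2]
      · linarith [hs.1]
    set z := conj (dir θ) * (U - (B + s • (C - B))) with hz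
    have hzre : z.re = a * t + (a * τ + c - s) * e.re := by
      rw [hz, hpos s, Complex.add_re, Complex.ofReal_re, Complex.re_ofReal_mul]
    have hzim : z.im = (a * τ + c - s) * e.im := by
      rw [hz, hpos s, Complex.add_im, Complex.ofReal_im, Complex.im_ofReal_mul, zero_add]
    have hre1 : |(a * τ + c - s) * e.re| ≤ σ := by
      rw [abs_mul]
      have h1 : |e.re| ≤ σ := (Complex.abs_re_le_norm e).trans hen.le
      calc |a * τ + c - s| * |e.re| ≤ 1 * σ := by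
            exact mul_le_mul hco h1 (abs_nonneg _) zero_le_one
        _ = σ := one_mul _
    have him1 : |z.im| ≤ σ := by
      rw [hzim, abs_mul]
      have h1 : |e.im| ≤ σ := (Complex.abs_im_le_norm e).trans hen.le
      calc |a * τ + c - s| * |e.im| ≤ 1 * σ := by
            exact mul_le_mul hco h1 (abs_nonneg _) zero_le_one
        _ = σ := one_mul _
    have hzn : r0 / 2 ≤ ‖z‖ := by
      have h1 : ‖z‖ = ‖U - (B + s • (C - B))‖ := by
        rw [hz, norm_mul, dir_conj, nd, one_mul]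
      have hy : B + s • (C - B) ∈ Metric.ball z0 (σ / 2) :=
        (convex_ball z0 (σ / 2)).segment_subset hB hC (hseg s hs)
      rw [Metric.mem_ball, dist_eq_norm] at hy
      have h2 : r0 ≤ ‖U - z0‖ := by
        by_contra hcon
        push Not at hcon
        exact hUout (hball (by rw [Metric.mem_ball, dist_eq_norm]; exact hcon))
      have h3 : ‖U - z0‖ ≤ ‖U - (B + s • (C - B))‖ + ‖B + s • (C - B) - z0‖ := by
        have : U - z0 = (U - (B + s • (C - B))) + (B + s • (C - B) - z0) := by ring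
        rw [this]
        exact norm_add_le _ _
      rw [h1]
      linarith
    obtain ⟨-, k2, k3, k4, k5, k6⟩ := hσ z hzn (by rw [hzre]; linarith [(abs_le.1 hre1).1]) him1
    rw [hzim] at k3 k4 k5 k6
    obtain ⟨φ, hφ⟩ := hvis _ (hseg s hs)
    exact ⟨arg z, k2, vis_arg hφ θ, k3, k4, k5, k6⟩

theorem tri_end (hp : IsConvexPolygon p) {z0 : ℂ} (hz0 : z0 ∈ reg p) {ε : ℝ} (hε : 0 < ε) :
    ∃ ρ : ℝ, 0 < ρ ∧ Metric.ball z0 ρ ⊆ reg p ∧ ∀ B ∈ Metric.ball z0 ρ, ∀ C ∈ Metric.ball z0 ρ,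
      ∀ (θ : ℝ) (w : List (Fin (n + 3))) (k : Fin (n + 3)), VisAt p B w k θ →
      ∃ (u : List (Fin (n + 3))) (l : Fin (n + 3)),
        (∀ y ∈ segment ℝ B C, ∃ φ ∈ Ioo (θ - ε) (θ + ε), VisAt p y u l φ) ∧
        (∃ φ ∈ Ioo (θ - ε) (θ + ε), VisAt p B u l φ ∧
          0 ≤ (conj (dir θ) * (C - B)).im * (φ - θ)) ∧
        (∃ φ ∈ Ioo (θ - ε) (θ + ε), VisAt p C u l φ ∧
          (conj (dir θ) * (C - B)).im * (φ - θ) ≤ 0) := by
  obtain ⟨ρ, hρ, hsub, key⟩ := position hp hz0 hε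
  refine ⟨ρ, hρ, hsub, fun B hB C hC θ w k hv => ?_⟩
  obtain ⟨u, l, a, b, c, ha, hb, hc, habc, -, -, h⟩ := key B hB C hC 0 ⟨le_rfl, zero_le_one⟩ θ w k
    (by rw [zero_smul, add_zero]; exact hv)
  have hI : ∀ α : ℝ, |α| < ε → θ + α ∈ Ioo (θ - ε) (θ + ε) := by
    intro α hα
    rw [abs_lt] at hα
    exact ⟨by linarith, by linarith⟩
  refine ⟨u, l, fun y hy => ?_, ?_, ?_⟩
  · rw [segment_eq_image'] at hy
    obtain ⟨s, hs, rfl⟩ := hy
    obtain ⟨α, h1, h2, -⟩ := h s hs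
    exact ⟨_, hI α h1, h2⟩
  · obtain ⟨α, h1, h2, h3, h4, -, -⟩ := h 0 ⟨le_rfl, zero_le_one⟩
    rw [zero_smul, add_zero] at h2
    refine ⟨_, hI α h1, h2, ?_⟩
    rw [add_sub_cancel_left]
    rw [mul_zero, zero_add, sub_zero] at h3 h4
    rcases le_total 0 (conj (dir θ) * (C - B)).im with h5 | h5
    · exact mul_nonneg h5 (h3 (mul_nonneg hc h5))
    · exact mul_nonneg_of_nonpos_of_nonpos h5 (h4 (mul_nonpos_of_nonneg_of_nonpos hc h5))
  · obtain ⟨α, h1, h2, h3, h4, -, -⟩ := h 1 ⟨zero_le_one, le_rfl⟩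
    rw [one_smul, add_sub_cancel] at h2
    refine ⟨_, hI α h1, h2, ?_⟩
    rw [add_sub_cancel_left]
    rw [mul_zero, zero_add] at h3 h4
    have h6 : c - 1 ≤ 0 := by linarith
    rcases le_total 0 (conj (dir θ) * (C - B)).im with h5 | h5
    · exact mul_nonpos_of_nonneg_of_nonpos h5 (h4 (mul_nonpos_of_nonpos_of_nonneg h6 h5))
    · exact mul_nonpos_of_nonpos_of_nonneg h5 (h3 (mul_nonneg_of_nonpos_of_nonpos h6 h5))

theorem tri_mid (hp : IsConvexPolygon p) {z0 : ℂ} (hz0 : z0 ∈ reg p) {ε : ℝ} (hε : 0 < ε) :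
    ∃ ρ : ℝ, 0 < ρ ∧ Metric.ball z0 ρ ⊆ reg p ∧ ∀ B ∈ Metric.ball z0 ρ, ∀ C ∈ Metric.ball z0 ρ,
      ∀ y0 ∈ openSegment ℝ B C, ∀ (θ : ℝ) (w : List (Fin (n + 3))) (k : Fin (n + 3)),
      VisAt p y0 w k θ → 0 < (conj (dir θ) * (C - B)).im →
      ∃ (u : List (Fin (n + 3))) (l : Fin (n + 3)),
        (∃ φ ∈ Ioo θ (θ + ε), VisAt p B u l φ) ∧ (∃ φ ∈ Ioo (θ - ε) θ, VisAt p C u l φ) := by
  obtain ⟨ρ, hρ, hsub, key⟩ := position hp hz0 hε
  refine ⟨ρ, hρ, hsub, fun B hB C hC y0 hy0 θ w k hv him => ?_⟩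
  rw [openSegment_eq_image'] at hy0
  obtain ⟨τ, hτ, rfl⟩ := hy0
  obtain ⟨u, l, a, b, c, ha, hb, hc, habc, hac, hab, h⟩ := key B hB C hC τ
    ⟨hτ.1.le, hτ.2.le⟩ θ w k hv
  refine ⟨u, l, ?_, ?_⟩
  · obtain ⟨α, h1, h2, -, -, h3, -⟩ := h 0 ⟨le_rfl, zero_le_one⟩
    rw [zero_smul, add_zero] at h2
    have h4 : 0 < a * τ + c - 0 := by
      rw [sub_zero]
      rcases hac with h5 | h5
      · have := mul_pos (lt_of_le_of_ne ha (Ne.symm h5)) hτ.1
        linarith
      · have h6 := lt_of_le_of_ne hc (Ne.symm h5)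
        have := mul_nonneg ha hτ.1.le
        linarith
    have h5 := h3 (mul_pos h4 him)
    rw [abs_lt] at h1
    exact ⟨_, ⟨by linarith, by linarith⟩, h2⟩
  · obtain ⟨α, h1, h2, -, -, -, h3⟩ := h 1 ⟨zero_le_one, le_rfl⟩
    rw [one_smul, add_sub_cancel] at h2
    have h4 : a * τ + c - 1 < 0 := by
      have e : a * τ + c - 1 = -(a * (1 - τ) + b) := by
        have : c = 1 - a - b := by linarith
        rw [this]
        ring
      rw [e]
      have h7 : 0 < 1 - τ := by linarith [hτ.2]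
      rcases hab with h5 | h5
      · have := mul_pos (lt_of_le_of_ne ha (Ne.symm h5)) h7
        linarith
      · have h6 := lt_of_le_of_ne hb (Ne.symm h5)
        have := mul_nonneg ha h7.le
        linarith
    have h5 := h3 (mul_neg_of_neg_of_pos h4 him)
    rw [abs_lt] at h1
    exact ⟨_, ⟨by linarith, by linarith⟩, h2⟩

end Pool.Agent.Zk40.RF
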